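import Mathlib

set_option autoImplicit false

namespace Pool.Agent.R114.Cyc

open Real

theorem no_int (S : ℝ) (n : ℤ) (h : S = π * n) (h0 : 0 < S) (h1 : S < π) : False := by
  have hp := Real.pi_pos
  have a1 : (0 : ℝ) < n := by
    by_contra hc
    push Not at hc
    nlinarith
  have a2 : (n : ℝ) < 1 := by
    by_contra hc
    push Not at hc
    nlinarith
  have b1 : (0 : ℤ) < n := by exact_mod_cast a1
  have b2 : n < 1 := by exact_mod_cast a2
  omega

/-- the combinatorial heart: no relation with opposite signs at `t1`, `t2` -/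
theorem signs (B t1 t2 t3 t4 : ℝ) (h1 : 0 < t1) (h2 : 0 < t2) (h3 : 0 < t3) (h4 : 0 < t4)
    (hB : B < π) (hsum : B = t1 + t2 + t3 + t4) (eB e1 e2 e3 e4 : ℝ)
    (heB : eB = 1 ∨ eB = -1) (he1 : e1 = 1 ∨ e1 = -1) (he2 : e2 = 1 ∨ e2 = -1)
    (he3 : e3 = 1 ∨ e3 = -1) (he4 : e4 = 1 ∨ e4 = -1) (hne : e1 * e2 = -1) (n : ℤ)
    (hR : eB * B = e1 * t1 + e2 * t2 + e3 * t3 + e4 * t4 + 2 * π * n) : False := by
  rcases heB with rfl | rfl <;> rcases he1 with rfl | rfl <;> rcases he2 with rfl | rfl <;>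
    rcases he3 with rfl | rfl <;> rcases he4 with rfl | rfl
  · norm_num at hne
  · norm_num at hne
  · norm_num at hne
  · norm_num at hne
  · exact no_int (t2) n (by linarith) (by linarith) (by linarith)
  · exact no_int (t2 + t4) n (by linarith) (by linarith) (by linarith)
  · exact no_int (t2 + t3) n (by linarith) (by linarith) (by linarith)
  · exact no_int (t2 + t3 + t4) n (by linarith) (by linarith) (by linarith)
  · exact no_int (t1) n (by linarith) (by linarith) (by linarith)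
  · exact no_int (t1 + t4) n (by linarith) (by linarith) (by linarith)
  · exact no_int (t1 + t3) n (by linarith) (by linarith) (by linarith)
  · exact no_int (t1 + t3 + t4) n (by linarith) (by linarith) (by linarith)
  · norm_num at hne
  · norm_num at hne
  · norm_num at hne
  · norm_num at hne
  · norm_num at hne
  · norm_num at hne
  · norm_num at hne
  · norm_num at hne
  · exact no_int (t1 + t3 + t4) (-n) (by push_cast; linarith) (by linarith) (by linarith)
  · exact no_int (t1 + t3) (-n) (by push_cast; linarith) (by linarith) (by linarith)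
  · exact no_int (t1 + t4) (-n) (by push_cast; linarith) (by linarith) (by linarith)
  · exact no_int (t1) (-n) (by push_cast; linarith) (by linarith) (by linarith)
  · exact no_int (t2 + t3 + t4) (-n) (by push_cast; linarith) (by linarith) (by linarith)
  · exact no_int (t2 + t3) (-n) (by push_cast; linarith) (by linarith) (by linarith)
  · exact no_int (t2 + t4) (-n) (by push_cast; linarith) (by linarith) (by linarith)
  · exact no_int (t2) (-n) (by push_cast; linarith) (by linarith) (by linarith)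
  · norm_num at hne
  · norm_num at hne
  · norm_num at hne
  · norm_num at hne

theorem mem_alg {z : ℂ} (h : ∃ q : ℚ, z ^ 2 = (q : ℂ)) : z ∈ algebraicClosure ℚ ℂ := by
  obtain ⟨q, hq⟩ := h
  rw [mem_algebraicClosure_iff]
  have h1 : IsAlgebraic ℚ (z ^ 2) := by
    rw [hq]
    exact isAlgebraic_algebraMap (A := ℂ) q
  exact h1.of_pow (by norm_num)

/-- If `B = t1 + t2 + t3 + t4` with all angles in `(0, π)` and rational cosines, then
`sin t1 * sin t2` is rational. -/
theorem galois (B t1 t2 t3 t4 : ℝ) (h1 : 0 < t1) (h2 : 0 < t2) (h3 : 0 < t3) (h4 : 0 < t4)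
    (hB : B < π) (hsum : B = t1 + t2 + t3 + t4) (cB c1 c2 c3 c4 : ℚ) (hcB : cos B = cB)
    (hc1 : cos t1 = c1) (hc2 : cos t2 = c2) (hc3 : cos t3 = c3) (hc4 : cos t4 = c4) :
    ∃ q : ℚ, sin t1 * sin t2 = q := by
  by_contra hcon
  push Not at hcon
  let a : ℝ → ℂ := fun t => Complex.I * (sin t : ℂ)
  have hsq : ∀ (t : ℝ) (c : ℚ), cos t = c → (a t) ^ 2 = ((c ^ 2 - 1 : ℚ) : ℂ) := by
    intro t c hc
    simp only [a]
    rw [mul_pow, Complex.I_sq]
    have : sin t ^ 2 = 1 - (c : ℝ) ^ 2 := by rw [← hc]; nlinarith [sin_sq_add_cos_sq t]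
    have h' : ((sin t : ℂ)) ^ 2 = 1 - (c : ℂ) ^ 2 := by exact_mod_cast this
    rw [h']
    push_cast
    ring
  have hmem : ∀ (t : ℝ) (c : ℚ), cos t = c → a t ∈ algebraicClosure ℚ ℂ := fun t c hc =>
    mem_alg ⟨_, hsq t c hc⟩
  let L := algebraicClosure ℚ ℂ
  let A1 : L := ⟨a t1, hmem t1 c1 hc1⟩
  let A2 : L := ⟨a t2, hmem t2 c2 hc2⟩
  let A3 : L := ⟨a t3, hmem t3 c3 hc3⟩
  let A4 : L := ⟨a t4, hmem t4 c4 hc4⟩
  let AB : L := ⟨a B, hmem B cB hcB⟩
  have hnot : A1 * A2 ∉ Set.range (algebraMap ℚ L) := by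
    rintro ⟨q, hq⟩
    have h5 := congrArg (fun z : L => (z : ℂ)) hq
    have h6 : (((algebraMap ℚ L) q : L) : ℂ) = (q : ℂ) := rfl
    simp only [h6] at h5
    have h7 : ((A1 * A2 : L) : ℂ) = a t1 * a t2 := rfl
    rw [h7] at h5
    simp only [a] at h5
    apply hcon (-q)
    have h8 : ((sin t1 * sin t2 : ℝ) : ℂ) = ((-q : ℝ) : ℂ) := by
      push_cast
      have : Complex.I * (sin t1 : ℂ) * (Complex.I * (sin t2 : ℂ)) =
          -((sin t1 : ℂ) * (sin t2 : ℂ)) := by
        linear_combination ((sin t1 : ℂ) * (sin t2 : ℂ)) * Complex.I_mul_I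
      rw [this] at h5
      rw [h5]
      push_cast
      ring
    have h9 := Complex.ofReal_injective h8
    rw [h9]
    push_cast
    ring
  have i1 : IsAlgClosure ℚ L := algebraicClosure.isAlgClosure ℚ ℂ
  have i2 : Normal ℚ L := IsAlgClosure.normal ℚ L
  have i4 : Algebra.IsSeparable ℚ L := IsAlgClosure.separable ℚ L
  have i3 : IsGalois ℚ L := ⟨⟩
  have hgal : ∃ σ : L ≃ₐ[ℚ] L, σ (A1 * A2) ≠ A1 * A2 := by
    by_contra hall
    push Not at hall
    exact hnot ((InfiniteGalois.mem_range_algebraMap_iff_fixed (k := ℚ) (K := L) (A1 * A2)).mpr hall)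
  obtain ⟨σ, hσ⟩ := hgal
  have hsgn : ∀ (t : ℝ) (c : ℚ) (hc : cos t = c) (A : L), (A : ℂ) = a t →
      ∃ e : ℝ, (e = 1 ∨ e = -1) ∧ σ A = (if e = 1 then A else -A) ∧
        ((σ (algebraMap ℚ L c + A) : L) : ℂ) = Complex.exp ((e * t : ℝ) * Complex.I) := by
    intro t c hc A hA
    have h5 : A ^ 2 = algebraMap ℚ L (c ^ 2 - 1) := by
      apply Subtype.ext
      have : ((A ^ 2 : L) : ℂ) = (A : ℂ) ^ 2 := rfl
      rw [this, hA, hsq t c hc]
      rfl
    have h6 : (σ A) ^ 2 = A ^ 2 := by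
      rw [← map_pow, h5, AlgEquiv.commutes]
    have hexp : ∀ s : ℝ, Complex.exp ((s : ℝ) * Complex.I) = (cos s : ℂ) + Complex.I * (sin s : ℂ) := by
      intro s
      rw [Complex.exp_mul_I, ← Complex.ofReal_cos, ← Complex.ofReal_sin]
      ring
    rcases sq_eq_sq_iff_eq_or_eq_neg.mp h6 with h7 | h7
    · refine ⟨1, Or.inl rfl, by simp [h7], ?_⟩
      rw [map_add, AlgEquiv.commutes, h7, one_mul, hexp, hc]
      have : ((algebraMap ℚ L c + A : L) : ℂ) = (c : ℂ) + (A : ℂ) := rfl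
      rw [this, hA]
      simp [a]
    · refine ⟨-1, Or.inr rfl, ?_, ?_⟩
      · rw [if_neg (by norm_num), h7]
      · rw [map_add, AlgEquiv.commutes, h7, hexp]
        have : ((algebraMap ℚ L c + -A : L) : ℂ) = (c : ℂ) + -(A : ℂ) := rfl
        rw [this, hA]
        simp only [a, neg_one_mul, cos_neg, sin_neg, hc]
        push_cast
        ring
  obtain ⟨eB, heB, hsB, hzB⟩ := hsgn B cB hcB AB rfl
  obtain ⟨e1, he1, hs1, hz1⟩ := hsgn t1 c1 hc1 A1 rfl
  obtain ⟨e2, he2, hs2, hz2⟩ := hsgn t2 c2 hc2 A2 rfl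
  obtain ⟨e3, he3, hs3, hz3⟩ := hsgn t3 c3 hc3 A3 rfl
  obtain ⟨e4, he4, hs4, hz4⟩ := hsgn t4 c4 hc4 A4 rfl
  have hne : e1 * e2 = -1 := by
    rw [map_mul, hs1, hs2] at hσ
    rcases he1 with h | h <;> rcases he2 with h' | h'
    · exfalso; apply hσ; rw [if_pos h, if_pos h']
    · rw [h, h']; norm_num
    · rw [h, h']; norm_num
    · exfalso; apply hσ; rw [h, h', if_neg (by norm_num), if_neg (by norm_num)]; ring
  have hz : ∀ (t : ℝ) (c : ℚ) (hc : cos t = c) (A : L), (A : ℂ) = a t →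
      ((algebraMap ℚ L c + A : L) : ℂ) = Complex.exp ((t : ℝ) * Complex.I) := by
    intro t c hc A hA
    have : ((algebraMap ℚ L c + A : L) : ℂ) = (c : ℂ) + (A : ℂ) := rfl
    rw [this, hA, Complex.exp_mul_I, ← Complex.ofReal_cos, ← Complex.ofReal_sin, hc]
    simp only [a]
    push_cast
    ring
  have hrel : (algebraMap ℚ L cB + AB : L) = (algebraMap ℚ L c1 + A1) * (algebraMap ℚ L c2 + A2) *
      (algebraMap ℚ L c3 + A3) * (algebraMap ℚ L c4 + A4) := by
    apply Subtype.ext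
    have : (((algebraMap ℚ L c1 + A1) * (algebraMap ℚ L c2 + A2) *
      (algebraMap ℚ L c3 + A3) * (algebraMap ℚ L c4 + A4) : L) : ℂ) =
      ((algebraMap ℚ L c1 + A1 : L) : ℂ) * ((algebraMap ℚ L c2 + A2 : L) : ℂ) *
      ((algebraMap ℚ L c3 + A3 : L) : ℂ) * ((algebraMap ℚ L c4 + A4 : L) : ℂ) := rfl
    rw [this, hz B cB hcB AB rfl, hz t1 c1 hc1 A1 rfl, hz t2 c2 hc2 A2 rfl, hz t3 c3 hc3 A3 rfl,
      hz t4 c4 hc4 A4 rfl, ← Complex.exp_add, ← Complex.exp_add, ← Complex.exp_add, hsum]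
    congr 1
    push_cast
    ring
  have hrel2 := congrArg (fun z : L => ((σ z : L) : ℂ)) hrel
  simp only [map_mul] at hrel2
  have hcoe : ∀ x y z w : L, ((x * y * z * w : L) : ℂ) = (x : ℂ) * (y : ℂ) * (z : ℂ) * (w : ℂ) :=
    fun _ _ _ _ => rfl
  rw [hcoe, hzB, hz1, hz2, hz3, hz4, ← Complex.exp_add, ← Complex.exp_add, ← Complex.exp_add,
    Complex.exp_eq_exp_iff_exists_int] at hrel2
  obtain ⟨n, hn⟩ := hrel2
  have him := congrArg Complex.im hn
  simp at him
  exact signs B t1 t2 t3 t4 h1 h2 h3 h4 hB hsum eB e1 e2 e3 e4 heB he1 he2 he3 he4 hne n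
    (by linarith)

end Pool.Agent.R114.Cyc
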