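import Mathlib
import Pool.Agent.R114.Cyc.Gal

set_option autoImplicit false

namespace Pool.Agent.R114.Cyc

open Real

/-- the spherical triangle inequalities -/
def T (a b c : ℝ) : Prop := |a - b| ≤ c ∧ c ≤ a + b ∧ c ≤ 2 * π - a - b

theorem cos_le_of_le {s t : ℝ} (h0 : 0 ≤ s) (hst : s ≤ t) (ht : t ≤ π) : cos t ≤ cos s :=
  cos_le_cos_of_nonneg_of_le_pi h0 ht hst

theorem cos_lt_of_lt {s t : ℝ} (h0 : 0 ≤ s) (hst : s < t) (ht : t ≤ π) : cos t < cos s :=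
  cos_lt_cos_of_nonneg_of_le_pi h0 ht hst

/-- algebraic and angular form of the triangle condition -/
theorem tri_iff {a b c : ℝ} (ha : 0 ≤ a) (ha' : a ≤ π) (hb : 0 ≤ b) (hb' : b ≤ π) (hc : 0 ≤ c)
    (hc' : c ≤ π) :
    (cos c - cos a * cos b) ^ 2 ≤ (1 - cos a ^ 2) * (1 - cos b ^ 2) ↔ T a b c := by
  have hsa : 0 ≤ sin a := sin_nonneg_of_nonneg_of_le_pi ha ha'
  have hsb : 0 ≤ sin b := sin_nonneg_of_nonneg_of_le_pi hb hb'
  have e1 : (1 - cos a ^ 2) * (1 - cos b ^ 2) = (sin a * sin b) ^ 2 := by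
    rw [mul_pow, sin_sq, sin_sq]
  have hadd := cos_add a b
  have hsub := cos_sub a b
  have habs : cos |a - b| = cos (a - b) := cos_abs _
  have habs1 : |a - b| ≤ π := by rw [abs_le]; constructor <;> linarith
  have habs0 : 0 ≤ |a - b| := abs_nonneg _
  have h2pi : cos (2 * π - a - b) = cos (a + b) := by
    rw [show 2 * π - a - b = 2 * π - (a + b) by ring, cos_two_pi_sub]
  rw [e1]
  constructor
  · intro h
    have h1 : |cos c - cos a * cos b| ≤ sin a * sin b := abs_le_of_sq_le_sq h (by positivity)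
    rw [abs_le] at h1
    refine ⟨?_, ?_, ?_⟩
    · by_contra hcon
      push Not at hcon
      have := cos_lt_of_lt hc hcon habs1
      rw [habs] at this
      linarith [h1.2]
    · by_contra hcon
      push Not at hcon
      have := cos_lt_of_lt (by linarith) hcon hc'
      linarith [h1.1]
    · by_contra hcon
      push Not at hcon
      have := cos_lt_of_lt (by linarith) hcon hc'
      rw [h2pi] at this
      linarith [h1.1]
  · rintro ⟨h1, h2, h3⟩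
    have a1 := cos_le_of_le habs0 h1 hc'
    rw [habs] at a1
    have a2 : cos (a + b) ≤ cos c := by
      rcases le_total (a + b) π with h | h
      · exact cos_le_of_le hc h2 h
      · rw [← h2pi]
        exact cos_le_of_le hc h3 (by linarith)
    apply sq_le_sq'
    · linarith
    · linarith

theorem exists_cos_between {lo hi : ℝ} (h0 : 0 ≤ lo) (h : lo < hi) (h1 : hi ≤ π) :
    ∃ q : ℚ, |(q : ℝ)| ≤ 1 ∧ lo < arccos q ∧ arccos q < hi := by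
  have h2 := cos_lt_of_lt h0 h h1
  obtain ⟨q, hq1, hq2⟩ := exists_rat_btwn h2
  have b1 := neg_one_le_cos hi
  have b2 := cos_le_one lo
  have c1 : cos (arccos (q : ℝ)) = q := cos_arccos (by linarith) (by linarith)
  refine ⟨q, abs_le.mpr ⟨by linarith, by linarith⟩, ?_, ?_⟩
  · by_contra hc
    push Not at hc
    have := cos_le_of_le (arccos_nonneg _) hc (by linarith)
    linarith
  · by_contra hc
    push Not at hc
    have := cos_le_of_le (by linarith) hc (arccos_le_pi _)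
    linarith

/-- the form in which the tight relations are used -/
theorem galois' (th0 th1 th2 th3 th4 : ℝ) (x0 x1 x2 x3 x4 : ℚ)
    (h0 : 0 < th0 ∧ th0 < π) (h1 : 0 < th1 ∧ th1 < π) (h2 : 0 < th2 ∧ th2 < π)
    (h3 : 0 < th3 ∧ th3 < π) (h4 : 0 < th4 ∧ th4 < π)
    (e0 : cos th0 = x0) (e1 : cos th1 = x1) (e2 : cos th2 = x2) (e3 : cos th3 = x3)
    (e4 : cos th4 = x4) (B t0 t1 t3 t4 : ℝ) (hB : B = th2 ∨ B = π - th2)
    (ht0 : t0 = th0 ∨ t0 = π - th0) (ht1 : t1 = th1 ∨ t1 = π - th1)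
    (ht3 : t3 = th3 ∨ t3 = π - th3) (ht4 : t4 = th4 ∨ t4 = π - th4)
    (hsum : B = t0 + t1 + t3 + t4) :
    (∃ q : ℚ, sin th0 * sin th1 = q) ∧ ∃ q : ℚ, sin th3 * sin th4 = q := by
  have key : ∀ (t th : ℝ) (x : ℚ), (t = th ∨ t = π - th) → (0 < th ∧ th < π) → cos th = x →
      (0 < t ∧ t < π) ∧ sin t = sin th ∧ ∃ y : ℚ, cos t = y := by
    rintro t th x (rfl | rfl) h e
    · exact ⟨h, rfl, x, e⟩
    · refine ⟨⟨by linarith [h.2], by linarith [h.1]⟩, sin_pi_sub th, -x, ?_⟩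
      rw [cos_pi_sub, e]
      push_cast
      rfl
  obtain ⟨⟨-, p2⟩, -, cB, hcB⟩ := key B th2 x2 hB h2 e2
  obtain ⟨⟨p0, -⟩, s0, c0, hc0⟩ := key t0 th0 x0 ht0 h0 e0
  obtain ⟨⟨p1, -⟩, s1, c1, hc1⟩ := key t1 th1 x1 ht1 h1 e1
  obtain ⟨⟨p3, -⟩, s3, c3, hc3⟩ := key t3 th3 x3 ht3 h3 e3
  obtain ⟨⟨p4, -⟩, s4, c4, hc4⟩ := key t4 th4 x4 ht4 h4 e4
  rw [← s0, ← s1, ← s3, ← s4]
  exact ⟨galois B t0 t1 t3 t4 p0 p1 p3 p4 p2 hsum cB c0 c1 c3 c4 hcB hc0 hc1 hc3 hc4,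
    galois B t3 t4 t0 t1 p3 p4 p0 p1 p2 (by linarith) cB c3 c4 c0 c1 hcB hc3 hc4 hc0 hc1⟩

theorem rform {a b : ℝ} : ∃ s t : ℝ, (s = a ∨ s = π - a) ∧ (t = b ∨ t = π - b) ∧
    min (a + b) (2 * π - a - b) = s + t := by
  rcases le_total (a + b) (2 * π - a - b) with h | h
  · exact ⟨a, b, Or.inl rfl, Or.inl rfl, min_eq_left h⟩
  · exact ⟨π - a, π - b, Or.inr rfl, Or.inr rfl, by rw [min_eq_right h]; ring⟩

theorem lform {a b : ℝ} : ∃ s t : ℝ, (s = a ∨ s = π - a) ∧ (t = b ∨ t = π - b) ∧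
    π - |a - b| = s + t := by
  rcases le_total a b with h | h
  · exact ⟨a, π - b, Or.inl rfl, Or.inr rfl, by rw [abs_of_nonpos (by linarith)]; ring⟩
  · exact ⟨π - a, b, Or.inr rfl, Or.inl rfl, by rw [abs_of_nonneg (by linarith)]; ring⟩

theorem cos_r {a b : ℝ} : cos (min (a + b) (2 * π - a - b)) = cos a * cos b - sin a * sin b := by
  rw [← cos_add]
  rcases le_total (a + b) (2 * π - a - b) with h | h
  · rw [min_eq_left h]
  · rw [min_eq_right h, show 2 * π - a - b = 2 * π - (a + b) by ring, cos_two_pi_sub]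

theorem cos_l {a b : ℝ} : cos |a - b| = cos a * cos b + sin a * sin b := by
  rw [cos_abs, cos_sub]

/-- a rational solution exists in the nondegenerate case -/
theorem nondeg (x0 x1 x2 x3 x4 : ℚ) (th0 th1 th2 th3 th4 : ℝ)
    (h0 : 0 < th0 ∧ th0 < π) (h1 : 0 < th1 ∧ th1 < π) (h2 : 0 < th2 ∧ th2 < π)
    (h3 : 0 < th3 ∧ th3 < π) (h4 : 0 < th4 ∧ th4 < π)
    (e0 : cos th0 = x0) (e1 : cos th1 = x1) (e2 : cos th2 = x2) (e3 : cos th3 = x3)
    (e4 : cos th4 = x4) (p s : ℝ) (hp : 0 ≤ p ∧ p ≤ π) (hs : 0 ≤ s ∧ s ≤ π)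
    (T1 : T th0 th1 p) (T3 : T th3 th4 s) (T2 : T p s th2) :
    ∃ u w : ℚ, |(u : ℝ)| ≤ 1 ∧ |(w : ℝ)| ≤ 1 ∧ T th0 th1 (arccos u) ∧ T th3 th4 (arccos w) ∧
      T (arccos u) (arccos w) th2 := by
  obtain ⟨a1, a2, a3⟩ := T1
  obtain ⟨b1, b2, b3⟩ := T3
  obtain ⟨c1, c2, c3⟩ := T2
  rw [abs_le] at c1
  set l1 := |th0 - th1| with hl1
  set r1 := min (th0 + th1) (2 * π - th0 - th1) with hr1
  set l2 := |th3 - th4| with hl2
  set r2 := min (th3 + th4) (2 * π - th3 - th4) with hr2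
  have hpr : p ≤ r1 := le_min a2 a3
  have hsr : s ≤ r2 := le_min b2 b3
  -- a helper for the corners
  have corner : (∃ q : ℚ, cos p = q) → (∃ q : ℚ, cos s = q) →
      ∃ u w : ℚ, |(u : ℝ)| ≤ 1 ∧ |(w : ℝ)| ≤ 1 ∧ T th0 th1 (arccos u) ∧ T th3 th4 (arccos w) ∧
      T (arccos u) (arccos w) th2 := by
    rintro ⟨u, hu⟩ ⟨w, hw⟩
    have hu' : arccos (u : ℝ) = p := by rw [← hu, arccos_cos hp.1 hp.2]
    have hw' : arccos (w : ℝ) = s := by rw [← hw, arccos_cos hs.1 hs.2]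
    refine ⟨u, w, ?_, ?_, ?_, ?_, ?_⟩
    · rw [← hu]; exact abs_cos_le_one p
    · rw [← hw]; exact abs_cos_le_one s
    · rw [hu']; exact ⟨a1, a2, a3⟩
    · rw [hw']; exact ⟨b1, b2, b3⟩
    · rw [hu', hw']; exact ⟨abs_le.mpr c1, c2, c3⟩
  have rat_l : ∀ (a b : ℝ) (x y q : ℚ), cos a = x → cos b = y → sin a * sin b = q →
      ∃ z : ℚ, cos |a - b| = z := by
    intro a b x y q ha hb hq
    exact ⟨x * y + q, by rw [cos_l, ha, hb, hq]; push_cast; ring⟩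
  have rat_r : ∀ (a b : ℝ) (x y q : ℚ), cos a = x → cos b = y → sin a * sin b = q →
      ∃ z : ℚ, cos (min (a + b) (2 * π - a - b)) = z := by
    intro a b x y q ha hb hq
    exact ⟨x * y - q, by rw [cos_r, ha, hb, hq]; push_cast; ring⟩
  by_cases k1 : r1 + r2 ≤ th2
  · have q1 : p = r1 := by linarith
    have q2 : s = r2 := by linarith
    obtain ⟨s0, s1, hs0, hs1, hr⟩ := rform (a := th0) (b := th1)
    obtain ⟨s3, s4, hs3, hs4, hr'⟩ := rform (a := th3) (b := th4)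
    obtain ⟨⟨q, hq⟩, q', hq'⟩ := galois' th0 th1 th2 th3 th4 x0 x1 x2 x3 x4 h0 h1 h2 h3 h4
      e0 e1 e2 e3 e4 th2 s0 s1 s3 s4 (Or.inl rfl) hs0 hs1 hs3 hs4 (by linarith)
    exact corner (q1 ▸ rat_r _ _ _ _ q e0 e1 hq) (q2 ▸ rat_r _ _ _ _ q' e3 e4 hq')
  by_cases k2 : th2 ≤ l1 - r2
  · have q1 : p = l1 := by linarith
    have q2 : s = r2 := by linarith
    obtain ⟨s0, s1, hs0, hs1, hr⟩ := lform (a := th0) (b := th1)
    obtain ⟨s3, s4, hs3, hs4, hr'⟩ := rform (a := th3) (b := th4)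
    obtain ⟨⟨q, hq⟩, q', hq'⟩ := galois' th0 th1 th2 th3 th4 x0 x1 x2 x3 x4 h0 h1 h2 h3 h4
      e0 e1 e2 e3 e4 (π - th2) s0 s1 s3 s4 (Or.inr rfl) hs0 hs1 hs3 hs4 (by linarith)
    exact corner (q1 ▸ rat_l _ _ _ _ q e0 e1 hq) (q2 ▸ rat_r _ _ _ _ q' e3 e4 hq')
  by_cases k3 : th2 ≤ l2 - r1
  · have q1 : p = r1 := by linarith
    have q2 : s = l2 := by linarith
    obtain ⟨s0, s1, hs0, hs1, hr⟩ := rform (a := th0) (b := th1)
    obtain ⟨s3, s4, hs3, hs4, hr'⟩ := lform (a := th3) (b := th4)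
    obtain ⟨⟨q, hq⟩, q', hq'⟩ := galois' th0 th1 th2 th3 th4 x0 x1 x2 x3 x4 h0 h1 h2 h3 h4
      e0 e1 e2 e3 e4 (π - th2) s0 s1 s3 s4 (Or.inr rfl) hs0 hs1 hs3 hs4 (by linarith)
    exact corner (q1 ▸ rat_r _ _ _ _ q e0 e1 hq) (q2 ▸ rat_l _ _ _ _ q' e3 e4 hq')
  by_cases k4 : 2 * π - th2 ≤ l1 + l2
  · have q1 : p = l1 := by linarith
    have q2 : s = l2 := by linarith
    obtain ⟨s0, s1, hs0, hs1, hr⟩ := lform (a := th0) (b := th1)
    obtain ⟨s3, s4, hs3, hs4, hr'⟩ := lform (a := th3) (b := th4)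
    obtain ⟨⟨q, hq⟩, q', hq'⟩ := galois' th0 th1 th2 th3 th4 x0 x1 x2 x3 x4 h0 h1 h2 h3 h4
      e0 e1 e2 e3 e4 th2 s0 s1 s3 s4 (Or.inl rfl) hs0 hs1 hs3 hs4 (by linarith)
    exact corner (q1 ▸ rat_l _ _ _ _ q e0 e1 hq) (q2 ▸ rat_l _ _ _ _ q' e3 e4 hq')
  push Not at k1 k2 k3 k4
  -- strict case
  have hl10 : 0 ≤ l1 := abs_nonneg _
  have hl20 : 0 ≤ l2 := abs_nonneg _
  have hlr1 : l1 < r1 := by
    rw [hl1, hr1, lt_min_iff]
    constructor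
    · rw [abs_lt]; constructor <;> linarith [h0.1, h1.1]
    · rw [abs_lt]; constructor <;> linarith [h0.2, h1.2]
  have hlr2 : l2 < r2 := by
    rw [hl2, hr2, lt_min_iff]
    constructor
    · rw [abs_lt]; constructor <;> linarith [h3.1, h4.1]
    · rw [abs_lt]; constructor <;> linarith [h3.2, h4.2]
  have hr1' : r1 ≤ th0 + th1 := min_le_left _ _
  have hr1'' : r1 ≤ 2 * π - th0 - th1 := min_le_right _ _
  have hr2' : r2 ≤ th3 + th4 := min_le_left _ _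
  have hr2'' : r2 ≤ 2 * π - th3 - th4 := min_le_right _ _
  have hr1pi : r1 ≤ π := by linarith
  have hr2pi : r2 ≤ π := by linarith
  obtain ⟨h21, h22⟩ := h2
  have hlt : max l1 (max (l2 - th2) (th2 - r2)) < min r1 (min (2 * π - th2 - l2) (r2 + th2)) := by
    simp only [max_lt_iff, lt_min_iff]
    refine ⟨⟨?_, ?_, ?_⟩, ⟨?_, ?_, ?_⟩, ?_, ?_, ?_⟩ <;> linarith
  obtain ⟨u, hu, hu1, hu2⟩ := exists_cos_between (le_max_of_le_left hl10) hlt
    ((min_le_left _ _).trans hr1pi)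
  set P := arccos (u : ℝ) with hP
  simp only [max_lt_iff, lt_min_iff] at hu1 hu2
  obtain ⟨m1, m2, m3⟩ := hu1
  obtain ⟨m4, m5, m6⟩ := hu2
  have hlt2 : max l2 (max (P - th2) (th2 - P)) < min r2 (min (P + th2) (2 * π - th2 - P)) := by
    simp only [max_lt_iff, lt_min_iff]
    refine ⟨⟨?_, ?_, ?_⟩, ⟨?_, ?_, ?_⟩, ?_, ?_, ?_⟩ <;> linarith
  obtain ⟨w, hw, hw1, hw2⟩ := exists_cos_between (le_max_of_le_left hl20) hlt2
    ((min_le_left _ _).trans hr2pi)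
  set S := arccos (w : ℝ) with hS
  simp only [max_lt_iff, lt_min_iff] at hw1 hw2
  obtain ⟨n1, n2, n3⟩ := hw1
  obtain ⟨n4, n5, n6⟩ := hw2
  refine ⟨u, w, hu, hw, ⟨m1.le, by linarith, by linarith⟩, ⟨n1.le, by linarith, by linarith⟩,
    abs_le.mpr ⟨by linarith, by linarith⟩, by linarith, by linarith⟩

end Pool.Agent.R114.Cyc
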