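import Mathlib
import Pool.Agent.R114.Cyc.Ang

set_option autoImplicit false

namespace Pool.Agent.R114.Cyc

open Real

/-- two intervals with rational centres and squared radii which meet have a common rational point -/
theorem two_intervals (c c' E E' : ℚ) (w0 : ℝ) (h : (w0 - c) ^ 2 ≤ E) (h' : (w0 - c') ^ 2 ≤ E') :
    ∃ w : ℚ, (w - c) ^ 2 ≤ E ∧ (w - c') ^ 2 ≤ E' := by
  have hE : (0 : ℝ) ≤ E := (sq_nonneg _).trans h
  have hE' : (0 : ℝ) ≤ E' := (sq_nonneg _).trans h'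
  have sE : √(E : ℝ) ^ 2 = E := Real.sq_sqrt hE
  have sE' : √(E' : ℝ) ^ 2 = E' := Real.sq_sqrt hE'
  have n1 := Real.sqrt_nonneg (E : ℝ)
  have n2 := Real.sqrt_nonneg (E' : ℝ)
  have a1 := abs_le.mp (Real.abs_le_sqrt h)
  have a2 := abs_le.mp (Real.abs_le_sqrt h')
  have cast : ∀ w : ℚ, ((w : ℝ) - c) ^ 2 ≤ E → ((w : ℝ) - c') ^ 2 ≤ E' →
      ∃ w : ℚ, (w - c) ^ 2 ≤ E ∧ (w - c') ^ 2 ≤ E' := fun w h1 h2 =>
    ⟨w, by exact_mod_cast h1, by exact_mod_cast h2⟩
  by_cases hlt : max ((c : ℝ) - √E) (c' - √E') < min (c + √E) (c' + √E')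
  · obtain ⟨q, hq1, hq2⟩ := exists_rat_btwn hlt
    simp only [max_lt_iff, lt_min_iff] at hq1 hq2
    apply cast q
    · rw [← sE]; apply sq_le_sq'
      · linarith [hq1.1]
      · linarith [hq2.1]
    · rw [← sE']; apply sq_le_sq'
      · linarith [hq1.2]
      · linarith [hq2.2]
  · rw [max_lt_iff, lt_min_iff, lt_min_iff] at hlt
    -- one of four comparisons fails
    have hcase : (c : ℝ) + √E ≤ c - √E ∨ (c' : ℝ) + √E' ≤ c - √E ∨ (c : ℝ) + √E ≤ c' - √E' ∨
        (c' : ℝ) + √E' ≤ c' - √E' := by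
      by_contra hc
      push Not at hc
      exact hlt ⟨⟨hc.1, hc.2.1⟩, hc.2.2.1, hc.2.2.2⟩
    have diff : (c : ℝ) ≠ c' → (w0 - c) ^ 2 = E → (w0 - c') ^ 2 = E' → ∃ q : ℚ, w0 = q := by
      intro hne h1 h2
      refine ⟨(E - E' - c ^ 2 + c' ^ 2) / (2 * (c' - c)), ?_⟩
      push_cast
      rw [eq_div_iff (by
        intro h0
        apply hne
        linarith)]
      linarith
    have same : ∀ q : ℚ, w0 = q → ∃ w : ℚ, (w - c) ^ 2 ≤ E ∧ (w - c') ^ 2 ≤ E' := by
      intro q hq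
      rw [hq] at h h'
      exact cast q h h'
    rcases hcase with h1 | h1 | h1 | h1
    · exact same c (by linarith)
    · have e1 : w0 = c - √E := by linarith
      have e2 : w0 = c' + √E' := by linarith
      by_cases hne : (c : ℝ) = c'
      · exact same c (by linarith)
      · obtain ⟨q, hq⟩ := diff hne (by
          have k : w0 - c = -√E := by linarith
          rw [k, neg_sq, sE]) (by
          have k : w0 - c' = √E' := by linarith
          rw [k, sE'])
        exact same q hq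
    · have e1 : w0 = c + √E := by linarith
      have e2 : w0 = c' - √E' := by linarith
      by_cases hne : (c : ℝ) = c'
      · exact same c (by linarith)
      · obtain ⟨q, hq⟩ := diff hne (by
          have k : w0 - c = √E := by linarith
          rw [k, sE]) (by
          have k : w0 - c' = -√E' := by linarith
          rw [k, neg_sq, sE'])
        exact same q hq
    · exact same c' (by linarith)

/-- the new vertex as a rational combination of two old ones -/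
theorem comb (p q g : ℚ) (hp : p ^ 2 ≤ 1) (hT : (g - p * q) ^ 2 ≤ (1 - p ^ 2) * (1 - q ^ 2))
    (hg : g ^ 2 ≤ 1) : ∃ a b : ℚ, p = a + g * b ∧ q = g * a + b ∧ a * p + b * q ≤ 1 := by
  by_cases h : g ^ 2 = 1
  · have h1 : (p - g * q) ^ 2 ≤ 0 := by nlinarith
    have h2 : p = g * q := by
      have := pow_eq_zero_iff (two_ne_zero) |>.mp (le_antisymm h1 (sq_nonneg _))
      linarith
    refine ⟨p, 0, by ring, ?_, by nlinarith⟩
    rw [h2, add_zero, ← mul_assoc, ← sq, h, one_mul]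
  · have h0 : 0 < 1 - g ^ 2 := by
      rcases lt_or_eq_of_le hg with h' | h'
      · linarith
      · exact absurd h' h
    refine ⟨(p - g * q) / (1 - g ^ 2), (q - g * p) / (1 - g ^ 2), ?_, ?_, ?_⟩
    · field_simp
      ring
    · field_simp
      ring
    · have : (p - g * q) / (1 - g ^ 2) * p + (q - g * p) / (1 - g ^ 2) * q =
          (p ^ 2 + q ^ 2 - 2 * g * p * q) / (1 - g ^ 2) := by
        field_simp
        ring
      rw [this, div_le_one h0]
      nlinarith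

/-- the real data: a psd matrix with unit diagonal and prescribed entries on the cycle -/
def HasReal (x : Fin 5 → ℚ) : Prop :=
  ∃ X : Matrix (Fin 5) (Fin 5) ℝ, X.PosSemidef ∧ (∀ i, X i i = 1) ∧ ∀ i, X i (i + 1) = x i

/-- a rational psd completion -/
def HasRat (x : Fin 5 → ℚ) : Prop :=
  ∃ Y : Matrix (Fin 5) (Fin 5) ℚ, (Y.map (fun q => (q : ℝ))).PosSemidef ∧ (∀ i, Y i i = 1) ∧
    ∀ i, Y i (i + 1) = x i

theorem psd3 (u w v b0 b2 b3 : ℝ) (hu : u ^ 2 ≤ 1) (hv : v ^ 2 ≤ 1)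
    (h : (w - u * v) ^ 2 ≤ (1 - u ^ 2) * (1 - v ^ 2)) :
    0 ≤ b0 ^ 2 + b2 ^ 2 + b3 ^ 2 + 2 * u * b0 * b2 + 2 * w * b0 * b3 + 2 * v * b2 * b3 := by
  have e : b0 ^ 2 + b2 ^ 2 + b3 ^ 2 + 2 * u * b0 * b2 + 2 * w * b0 * b3 + 2 * v * b2 * b3 =
      (b2 + u * b0 + v * b3) ^ 2 +
        ((1 - u ^ 2) * b0 ^ 2 + 2 * (w - u * v) * b0 * b3 + (1 - v ^ 2) * b3 ^ 2) := by ring
  rw [e]
  have k : 0 ≤ (1 - u ^ 2) * b0 ^ 2 + 2 * (w - u * v) * b0 * b3 + (1 - v ^ 2) * b3 ^ 2 := by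
    rcases eq_or_lt_of_le hu with h1 | h1
    · have h2 : (w - u * v) ^ 2 ≤ 0 := by rw [h1] at h; linarith
      have h3 : w - u * v = 0 := pow_eq_zero_iff (two_ne_zero) |>.mp (le_antisymm h2 (sq_nonneg _))
      rw [h3, h1]
      nlinarith [mul_nonneg (sub_nonneg.mpr hv) (sq_nonneg b3)]
    · have h0 : 0 < 1 - u ^ 2 := by linarith
      have h4 : (1 - u ^ 2) * ((1 - u ^ 2) * b0 ^ 2 + 2 * (w - u * v) * b0 * b3 +
          (1 - v ^ 2) * b3 ^ 2) = ((1 - u ^ 2) * b0 + (w - u * v) * b3) ^ 2 +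
          ((1 - u ^ 2) * (1 - v ^ 2) - (w - u * v) ^ 2) * b3 ^ 2 := by ring
      have h5 : 0 ≤ (1 - u ^ 2) * ((1 - u ^ 2) * b0 ^ 2 + 2 * (w - u * v) * b0 * b3 +
          (1 - v ^ 2) * b3 ^ 2) := by
        rw [h4]
        have := mul_nonneg (sub_nonneg.mpr h) (sq_nonneg b3)
        positivity
      exact nonneg_of_mul_nonneg_right h5 h0
  positivity

theorem assemble (x : Fin 5 → ℚ) (u w : ℚ) (hx : ∀ i, x i ^ 2 ≤ 1) (hu : u ^ 2 ≤ 1)
    (hw : w ^ 2 ≤ 1)
    (C1 : (u - x 0 * x 1) ^ 2 ≤ (1 - x 0 ^ 2) * (1 - x 1 ^ 2))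
    (C3 : (w - x 3 * x 4) ^ 2 ≤ (1 - x 3 ^ 2) * (1 - x 4 ^ 2))
    (C2 : (w - u * x 2) ^ 2 ≤ (1 - u ^ 2) * (1 - x 2 ^ 2)) : HasRat x := by
  obtain ⟨a, b, h0, h1, hab⟩ := comb (x 0) (x 1) u (hx 0) C1 hu
  obtain ⟨a', b', h4, h3, hab'⟩ := comb (x 4) (x 3) w (hx 4) (by
    rw [mul_comm (x 4) (x 3), mul_comm (1 - x 4 ^ 2)]; exact C3) hw
  have hx2 := hx 2
  refine ⟨!![1, x 0, u, w, x 4;
             x 0, 1, x 1, a * w + b * x 2, a * x 4 + b * (a' * u + b' * x 2);
             u, x 1, 1, x 2, a' * u + b' * x 2;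
             w, a * w + b * x 2, x 2, 1, x 3;
             x 4, a * x 4 + b * (a' * u + b' * x 2), a' * u + b' * x 2, x 3, 1], ?_, ?_, ?_⟩
  · rw [Matrix.posSemidef_iff_dotProduct_mulVec]
    constructor
    · ext i j
      fin_cases i <;> fin_cases j <;> simp
    · intro t
      have hr : (0 : ℝ) ≤ (t 0 + a * t 1 + a' * t 4) ^ 2 + (t 2 + b * t 1) ^ 2 +
          (t 3 + b' * t 4) ^ 2 + 2 * u * (t 0 + a * t 1 + a' * t 4) * (t 2 + b * t 1) +
          2 * w * (t 0 + a * t 1 + a' * t 4) * (t 3 + b' * t 4) +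
          2 * (x 2 : ℝ) * (t 2 + b * t 1) * (t 3 + b' * t 4) := by
        apply psd3
        · exact_mod_cast hu
        · exact_mod_cast hx2
        · exact_mod_cast C2
      have hr1 : (0 : ℝ) ≤ (1 - (a * x 0 + b * x 1)) * t 1 ^ 2 := by
        apply mul_nonneg _ (sq_nonneg _)
        have : ((a * x 0 + b * x 1 : ℚ) : ℝ) ≤ 1 := by exact_mod_cast hab
        push_cast at this
        linarith
      have hr2 : (0 : ℝ) ≤ (1 - (a' * x 4 + b' * x 3)) * t 4 ^ 2 := by
        apply mul_nonneg _ (sq_nonneg _)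
        have : ((a' * x 4 + b' * x 3 : ℚ) : ℝ) ≤ 1 := by exact_mod_cast hab'
        push_cast at this
        linarith
      have g0 : (x 0 : ℝ) = a + u * b := by exact_mod_cast h0
      have g1 : (x 1 : ℝ) = u * a + b := by exact_mod_cast h1
      have g4 : (x 4 : ℝ) = a' + w * b' := by exact_mod_cast h4
      have g3 : (x 3 : ℝ) = w * a' + b' := by exact_mod_cast h3
      simp only [dotProduct, Matrix.mulVec, Fin.sum_univ_five, Matrix.map_apply, Pi.star_apply,
        star_trivial, Matrix.of_apply, Matrix.cons_val', Matrix.cons_val_zero, Matrix.cons_val_one,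
        Matrix.cons_val, Matrix.cons_val_fin_one]
      push_cast
      rw [g0, g1] at hr1
      rw [g4, g3] at hr2
      rw [g0, g1, g4, g3]
      linarith
  · intro i
    fin_cases i <;> rfl
  · intro i
    fin_cases i <;> rfl

/-- 3 × 3 minors of the real completion -/
theorem minor3 {X : Matrix (Fin 5) (Fin 5) ℝ} (hX : X.PosSemidef) (h1 : ∀ i, X i i = 1)
    (i j k : Fin 5) : (X i k - X i j * X j k) ^ 2 ≤ (1 - X i j ^ 2) * (1 - X j k ^ 2) := by
  have hs : ∀ a b, X a b = X b a := fun a b => by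
    have := hX.1.apply a b
    simpa using this.symm
  have h := (hX.submatrix ![i, j, k]).det_nonneg
  rw [Matrix.det_fin_three] at h
  simp only [Matrix.submatrix_apply, Matrix.cons_val_zero, Matrix.cons_val_one, Matrix.cons_val,
    h1] at h
  rw [hs j i, hs k i, hs k j] at h
  nlinarith

theorem minor2 {X : Matrix (Fin 5) (Fin 5) ℝ} (hX : X.PosSemidef) (h1 : ∀ i, X i i = 1)
    (i j : Fin 5) : X i j ^ 2 ≤ 1 := by
  have hs : ∀ a b, X a b = X b a := fun a b => by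
    have := hX.1.apply a b
    simpa using this.symm
  have h := (hX.submatrix ![i, j]).det_nonneg
  rw [Matrix.det_fin_two] at h
  simp only [Matrix.submatrix_apply, Matrix.cons_val_zero, Matrix.cons_val_one, Matrix.cons_val,
    h1] at h
  rw [hs j i] at h
  nlinarith

theorem swapT {u w v : ℝ} : (w - u * v) ^ 2 ≤ (1 - u ^ 2) * (1 - v ^ 2) ↔
    (v - u * w) ^ 2 ≤ (1 - u ^ 2) * (1 - w ^ 2) := by
  constructor <;> intro h <;> nlinarith

theorem rat_of_real_zero (x : Fin 5 → ℚ) (h : HasReal x) (h0 : x 0 ^ 2 = 1) : HasRat x := by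
  obtain ⟨X, hX, hd, he⟩ := h
  have hs : ∀ a b, X a b = X b a := fun a b => by
    have := hX.1.apply a b
    simpa using this.symm
  have hx : ∀ i, x i ^ 2 ≤ 1 := fun i => by
    have := minor2 hX hd i (i + 1)
    rw [he] at this
    exact_mod_cast this
  have e0 : X 0 1 = x 0 := he 0
  have e1 : X 1 2 = x 1 := he 1
  have e2 : X 2 3 = x 2 := he 2
  have e3 : X 3 4 = x 3 := he 3
  have e4 : X 4 0 = x 4 := he 4
  have m1 := minor3 hX hd 0 1 2
  have m3 := minor3 hX hd 3 4 0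
  have m2 := minor3 hX hd 0 2 3
  rw [e0, e1] at m1
  rw [e3, e4, hs 3 0] at m3
  rw [e2] at m2
  have h0' : (x 0 : ℝ) ^ 2 = 1 := by exact_mod_cast h0
  have hu : X 0 2 = x 0 * x 1 := by
    rw [h0', sub_self, zero_mul] at m1
    have := pow_eq_zero_iff (two_ne_zero) |>.mp (le_antisymm m1 (sq_nonneg _))
    linarith
  rw [hu] at m2
  obtain ⟨w, hw1, hw2⟩ := two_intervals (x 3 * x 4) (x 0 * x 1 * x 2)
    ((1 - x 3 ^ 2) * (1 - x 4 ^ 2)) ((1 - (x 0 * x 1) ^ 2) * (1 - x 2 ^ 2)) (X 0 3)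
    (by push_cast; exact m3) (by push_cast; exact m2)
  have hu2 : (x 0 * x 1) ^ 2 ≤ 1 := by
    rw [mul_pow, h0, one_mul]; exact hx 1
  have hw : w ^ 2 ≤ 1 := by
    -- from the triangle condition
    have hx3 := hx 3
    have hx4 := hx 4
    have k1 : (x 3 - w * x 4) ^ 2 ≤ (1 - w ^ 2) * (1 - x 4 ^ 2) := by nlinarith
    rcases eq_or_lt_of_le hx4 with h5 | h5
    · -- x 4 = ± 1
      have h6 : (w - x 3 * x 4) ^ 2 ≤ 0 := by rw [h5] at hw1; linarith
      have h7 : w = x 3 * x 4 := by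
        have := pow_eq_zero_iff (two_ne_zero) |>.mp (le_antisymm h6 (sq_nonneg _))
        linarith
      rw [h7, mul_pow, h5, mul_one]
      exact hx3
    · by_contra hcon
      push Not at hcon
      nlinarith [sq_nonneg (x 3 - w * x 4)]
  exact assemble x (x 0 * x 1) w hx hu2 hw (by
    rw [sub_self, h0]; norm_num) hw1 hw2

theorem rotate_real {x : Fin 5 → ℚ} (k : Fin 5) (h : HasReal x) :
    HasReal (fun j => x (j + k)) := by
  obtain ⟨X, hX, hd, he⟩ := h
  refine ⟨X.submatrix (· + k) (· + k), hX.submatrix _, fun i => hd _, fun i => ?_⟩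
  have := he (i + k)
  rw [Matrix.submatrix_apply, ← this]
  congr 1
  exact add_right_comm i 1 k

theorem rotate_rat {x : Fin 5 → ℚ} (k : Fin 5) (h : HasRat (fun j => x (j + k))) :
    HasRat x := by
  obtain ⟨Y, hY, hd, he⟩ := h
  refine ⟨Y.submatrix (· + -k) (· + -k), hY.submatrix _, fun i => hd _, fun i => ?_⟩
  have this : Y (i + -k) (i + -k + 1) = x (i + -k + k) := he (i + -k)
  rw [neg_add_cancel_right] at this
  rw [Matrix.submatrix_apply, ← this]
  congr 1
  exact add_right_comm i 1 (-k)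

theorem main (x : Fin 5 → ℚ) (h : HasReal x) : HasRat x := by
  by_cases hdeg : ∃ k, x k ^ 2 = 1
  · obtain ⟨k, hk⟩ := hdeg
    apply rotate_rat k
    apply rat_of_real_zero _ (rotate_real k h)
    simpa using hk
  · push Not at hdeg
    obtain ⟨X, hX, hd, he⟩ := h
    have hs : ∀ a b, X a b = X b a := fun a b => by
      have := hX.1.apply a b
      simpa using this.symm
    have hx : ∀ i, x i ^ 2 ≤ 1 := fun i => by
      have := minor2 hX hd i (i + 1)
      rw [he] at this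
      exact_mod_cast this
    have hx' : ∀ i, x i ^ 2 < 1 := fun i => lt_of_le_of_ne (hx i) (hdeg i)
    have habs : ∀ i, -1 < (x i : ℝ) ∧ (x i : ℝ) < 1 := fun i => by
      have : (x i : ℝ) ^ 2 < 1 := by exact_mod_cast hx' i
      constructor <;> nlinarith
    have th : ∀ i, 0 < arccos (x i : ℝ) ∧ arccos (x i : ℝ) < π := by
      intro i
      constructor
      · rw [arccos_pos]; exact (habs i).2
      · refine lt_of_le_of_ne (arccos_le_pi _) fun h => ?_
        rw [arccos_eq_pi] at h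
        linarith [(habs i).1]
    have ce : ∀ i, cos (arccos (x i : ℝ)) = x i := fun i =>
      cos_arccos (habs i).1.le (habs i).2.le
    have e0 : X 0 1 = x 0 := he 0
    have e1 : X 1 2 = x 1 := he 1
    have e2 : X 2 3 = x 2 := he 2
    have e3 : X 3 4 = x 3 := he 3
    have e4 : X 4 0 = x 4 := he 4
    have m1 := minor3 hX hd 0 1 2
    have m3 := minor3 hX hd 3 4 0
    have m2 := minor3 hX hd 0 2 3
    rw [e0, e1] at m1
    rw [e3, e4, hs 3 0] at m3
    rw [e2] at m2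
    have cu : cos (arccos (X 0 2)) = X 0 2 := by
      have := minor2 hX hd 0 2
      exact cos_arccos (by nlinarith) (by nlinarith)
    have cw : cos (arccos (X 0 3)) = X 0 3 := by
      have := minor2 hX hd 0 3
      exact cos_arccos (by nlinarith) (by nlinarith)
    have n0 : ∀ t : ℝ, 0 ≤ arccos t := arccos_nonneg
    have n1 : ∀ t : ℝ, arccos t ≤ π := arccos_le_pi
    have T1 : T (arccos (x 0 : ℝ)) (arccos (x 1 : ℝ)) (arccos (X 0 2)) := by
      rw [← tri_iff (n0 _) (n1 _) (n0 _) (n1 _) (n0 _) (n1 _), ce, ce, cu]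
      exact m1
    have T3 : T (arccos (x 3 : ℝ)) (arccos (x 4 : ℝ)) (arccos (X 0 3)) := by
      rw [← tri_iff (n0 _) (n1 _) (n0 _) (n1 _) (n0 _) (n1 _), ce, ce, cw]
      exact m3
    have T2 : T (arccos (X 0 2)) (arccos (X 0 3)) (arccos (x 2 : ℝ)) := by
      rw [← tri_iff (n0 _) (n1 _) (n0 _) (n1 _) (n0 _) (n1 _), ce, cu, cw]
      exact swapT.mp m2
    obtain ⟨u, w, hu, hw, t1, t3, t2⟩ := nondeg (x 0) (x 1) (x 2) (x 3) (x 4) _ _ _ _ _
      (th 0) (th 1) (th 2) (th 3) (th 4) (ce 0) (ce 1) (ce 2) (ce 3) (ce 4) _ _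
      ⟨n0 _, n1 _⟩ ⟨n0 _, n1 _⟩ T1 T3 T2
    have cu' : cos (arccos (u : ℝ)) = u := cos_arccos (abs_le.mp hu).1 (abs_le.mp hu).2
    have cw' : cos (arccos (w : ℝ)) = w := cos_arccos (abs_le.mp hw).1 (abs_le.mp hw).2
    rw [← tri_iff (n0 _) (n1 _) (n0 _) (n1 _) (n0 _) (n1 _)] at t1 t2 t3
    rw [ce, ce, cu'] at t1
    rw [ce, ce, cw'] at t3
    rw [ce, cu', cw'] at t2
    refine assemble x u w hx ?_ ?_ (by exact_mod_cast t1) (by exact_mod_cast t3)
      (by exact_mod_cast swapT.mpr t2)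
    · have : (u : ℝ) ^ 2 ≤ 1 := by rw [← sq_abs]; nlinarith [abs_nonneg (u : ℝ)]
      exact_mod_cast this
    · have : (w : ℝ) ^ 2 ≤ 1 := by rw [← sq_abs]; nlinarith [abs_nonneg (w : ℝ)]
      exact_mod_cast this

end Pool.Agent.R114.Cyc
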